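import Pool.Agent.Helper95.Lin.GoalsH

/-! # Packet KMAIN -/

open Complex Metric Set Filter Topology MeasureTheory
open scoped ContDiff ComplexConjugate ComplexOrder

namespace Pool.Agent.Helper45.Lin

open Pool.Agent.Helper95.Lin

/-- A smooth cutoff function. -/
theorem exists_cutoff {n : ℕ} {M K : Set (Cn n)} (hM : IsOpen M) (hK : IsCompact K)
    (hKM : K ⊆ M) : ∃ φ : Cn n → ℝ, TestF M φ ∧ (∀ x, 0 ≤ φ x) ∧ (∀ x, φ x ≤ 1) ∧
      ∀ x ∈ K, φ x = 1 := by
  obtain ⟨L, hL, hKL, hLM⟩ := exists_compact_between hK hM hKM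
  obtain ⟨f, h1, h0, hf⟩ := exists_contMDiffMap_one_nhds_of_subset_interior
    (n := (⊤ : ℕ∞)) (modelWithCornersSelf ℝ (Cn n)) hK.isClosed hKL
  have hsub : tsupport (f : Cn n → ℝ) ⊆ L := by
    refine closure_minimal ?_ hL.isClosed
    intro x hx
    by_contra hxL
    exact hx (h0 x hxL)
  refine ⟨f, ⟨?_, ?_, hsub.trans hLM⟩, fun x => (hf x).1, fun x => (hf x).2,
    fun x hx => h1.self_of_nhdsSet x hx⟩
  · exact f.contMDiff.contDiff
  · exact HasCompactSupport.of_support_subset_isCompact hL ((subset_tsupport _).trans hsub)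

/-- Homogeneity of the Levi form. -/
theorem lev_smul {n : ℕ} {φ : Cn n → ℝ} (hφ : ContDiff ℝ ∞ φ) (x e : Cn n) (t : ℝ) :
    lev φ x (t • e) = t ^ 2 * lev φ x e := by
  have h1 : ∀ u : Cn n, ∀ s : ℝ, hess φ x (s • u) (s • u) = s ^ 2 * hess φ x u u := by
    intro u s
    have h2 : (fun y => fderiv ℝ φ y (s • u)) = fun y => s • fderiv ℝ φ y u := by
      funext y
      rw [map_smul]
    have h3 : DifferentiableAt ℝ (fun y => fderiv ℝ φ y u) x := by
      have : ContDiff ℝ 1 (fun y => fderiv ℝ φ y u) :=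
        (hφ.fderiv_right (m := 1) (by norm_cast)).clm_apply contDiff_const
      exact (this.differentiable (by norm_num)) x
    unfold hess
    rw [h2, fderiv_fun_const_smul h3, map_smul]
    simp only [smul_apply, smul_eq_mul]
    ring
  unfold lev
  rw [smul_comm I t e, h1, h1]
  ring

theorem kmain : S_PU → S_RHO → S_MLIM → S_MDOM → S_LEV → S_LOGINT → S_WEAK → S_LOGH →
    S_KMAIN := by
  intro hPU hRHO hMLIM hMDOM hLEV hLOGINT hWEAK hLOGH n M Γ _ T P hE F c hFc hF0 hFs hFd hFT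
  have hMo : IsOpen M := hE.act.isOpen
  obtain ⟨x₀, hx₀, hFx₀⟩ := hFd M subset_rfl hMo hE.conn.nonempty
  -- additivity
  have hadd : ∀ γ γ', c (γ * γ') = c γ + c γ' := by
    intro γ γ'
    have h1 := hFT (γ * γ') x₀ hx₀
    rw [hE.act.mul γ γ' x₀ hx₀, hFT γ _ (hE.act.maps γ' x₀ hx₀), hFT γ' x₀ hx₀, ← mul_assoc,
      ← Real.exp_add] at h1
    have h2 := mul_right_cancel₀ hFx₀.ne' h1
    exact (Real.exp_injective h2).symm
  obtain ⟨hnull, hint⟩ := hLOGINT M hMo F hFc hF0 hFs hFd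
  obtain ⟨χ, hχ⟩ := hPU hE.act hE.proper hE.coc
  obtain ⟨ρ, hρ, hρT⟩ := hRHO hE.act hχ c hadd
  have hm := hMLIM hE hχ ρ c hρ hρT F hFc hF0 hFT hnull
  have hFsc : ∀ s : ℝ, 0 < s → ContinuousOn (fun x => F x ^ s) M := by
    intro s hs
    exact hFc.rpow_const fun x _ => Or.inr hs.le
  refine hLOGH M hMo F hFc hF0 hFd hint ?_
  -- small directions
  have key : ∀ ψ, TestF M ψ → ∀ e : Cn n, ‖e‖ ≤ 1 → ∫ x in M, Real.log (F x) * lev ψ x e = 0 := by
    intro ψ hψ e he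
    obtain ⟨η, hη, hη0, -, hη1⟩ := exists_cutoff hMo hψ.2.1 hψ.2.2
    obtain ⟨B, hB⟩ := hψ.2.1.exists_bound_of_continuousOn hψ.1.continuous.continuousOn
    have hBB : ∀ x, |ψ x| ≤ |B| * η x := by
      intro x
      by_cases hx : x ∈ tsupport ψ
      · rw [hη1 x hx, mul_one]
        exact (hB x hx).trans (le_abs_self B)
      · rw [image_eq_zero_of_notMem_tsupport hx, abs_zero]
        exact mul_nonneg (abs_nonneg _) (hη0 x)
    have hφ : TestF M (fun x => |B| * η x) := by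
      refine ⟨contDiff_const.mul hη.1, hη.2.1.mul_left, ?_⟩
      exact (tsupport_mul_subset_right (f := fun _ => |B|) (g := η)).trans hη.2.2
    have hφ0 : ∀ x, 0 ≤ |B| * η x := fun x => mul_nonneg (abs_nonneg _) (hη0 x)
    obtain ⟨C, hC, hC1⟩ := hLEV hE _ hφ hφ0
    obtain ⟨C', hC', hC1'⟩ := hMDOM hE hχ ρ c hρ hρT F hFc hF0 hFT hFs _ hφ hφ0
    have hw := hWEAK M hMo F hFc hF0 hnull hint ψ hψ e
    have h0 : Tendsto (fun s : ℝ => s⁻¹ * ∫ x in M, F x ^ s * lev ψ x e) (𝓝[>] 0) (𝓝 0) := by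
      have hm2 := hm.const_mul (C * C')
      rw [mul_zero] at hm2
      refine squeeze_zero_norm' ?_ hm2
      have hev : ∀ᶠ s : ℝ in 𝓝[>] 0, s ∈ Ioo (0 : ℝ) 1 := Ioo_mem_nhdsGT one_pos
      filter_upwards [hev] with s hs
      have h1 := hC1 (fun x => F x ^ s) (hFsc s hs.1) (hFs s hs.1 hs.2.le) ψ hψ hBB e he
      have h2 := hC1' s hs.1 hs.2.le
      rw [Real.norm_eq_abs, abs_mul, abs_of_pos (inv_pos.2 hs.1)]
      calc s⁻¹ * |∫ x in M, F x ^ s * lev ψ x e|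
          ≤ s⁻¹ * (C * (C' * ∫ x in M, F x ^ s *
            Lop P (fun y => χ y * Real.exp (-s * ρ y)) x)) :=
            mul_le_mul_of_nonneg_left (h1.trans (mul_le_mul_of_nonneg_left h2 hC))
              (inv_pos.2 hs.1).le
        _ = C * C' * (s⁻¹ * ∫ x in M, F x ^ s * Lop P (fun y => χ y * Real.exp (-s * ρ y)) x) := by
            ring
    exact tendsto_nhds_unique hw h0
  intro ψ hψ e
  by_cases he : ‖e‖ ≤ 1
  · exact key ψ hψ e he
  · push Not at he
    have hpos : 0 < ‖e‖ := one_pos.trans he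
    have h1 : ‖(‖e‖⁻¹ : ℝ) • e‖ ≤ 1 := by
      rw [norm_smul, norm_inv, norm_norm, inv_mul_cancel₀ hpos.ne']
    have h2 := key ψ hψ _ h1
    have h3 : ∀ x, Real.log (F x) * lev ψ x e =
        ‖e‖ ^ 2 * (Real.log (F x) * lev ψ x ((‖e‖⁻¹ : ℝ) • e)) := by
      intro x
      rw [lev_smul hψ.1]
      field_simp
    simp_rw [h3]
    rw [integral_const_mul, h2, mul_zero]

end Pool.Agent.Helper45.Lin
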