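import Pool.Agent.Helper95.Lin.GoalsA
import Pool.Agent.Helper95.Lin.GoalsG
import Pool.Agent.Helper95.Lin.Basics

/-! # Packet CARC -/

open Complex Metric Set Filter Topology MeasureTheory
open scoped ContDiff ComplexConjugate ComplexOrder

namespace Pool.Agent.Helper45.Lin

open Pool.Agent.Helper95.Lin

/-- The determinant of the matrix `vm` is holomorphic. -/
theorem vm_det_holo {b m : ℕ} {D : Set (Cn b)} (hD : IsOpen D) {V : Fin m → Cn b → Cn b}
    (hV : ∀ i, DifferentiableOn ℂ (V i) D) {f : Fin m → Cn b → ℂ}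
    (hf : ∀ j, DifferentiableOn ℂ (f j) D) :
    DifferentiableOn ℂ (fun z => (vm V f z).det) D := by
  have h1 : ∀ i j, DifferentiableOn ℂ (fun z => vm V f z i j) D := by
    intro i j
    simp only [vm, Matrix.of_apply]
    exact (holo_fderiv hD (hf j)).clm_apply (hV i)
  simp only [Matrix.det_apply]
  refine DifferentiableOn.fun_sum fun σ _ => ?_
  refine DifferentiableOn.const_smul ?_ _
  have h2 : ∀ t : Finset (Fin m), DifferentiableOn ℂ (fun z => ∏ i ∈ t, vm V f z (σ i) i) D := by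
    intro t
    induction t using Finset.induction_on with
    | empty => simp
    | insert a t ha ih =>
      simp only [Finset.prod_insert ha]
      exact (h1 _ _).mul ih
  exact h2 _

/-- Uniform bound for the determinant on compact sets. -/
theorem vm_det_bound (hCAU : S_CAU) {b m : ℕ} {D : Set (Cn b)} (hD : IsOpen D)
    {V : Fin m → Cn b → Cn b} (hV : ∀ i, DifferentiableOn ℂ (V i) D) {K : Set (Cn b)}
    (hKD : K ⊆ D) (hK : IsCompact K) :
    ∃ C : ℝ, 0 ≤ C ∧ ∀ f : Fin m → Cn b → ℂ, Adm D f → ∀ z ∈ K, ‖(vm V f z).det‖ ≤ C := by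
  obtain ⟨K', hK'D, hK', -, C, hC, hCf⟩ := hCAU (m := 1) D hD K hKD hK
  have hB : ∀ i, ∃ B : ℝ, ∀ z ∈ K, ‖V i z‖ ≤ B := fun i =>
    hK.exists_bound_of_continuousOn ((hV i).continuousOn.mono hKD)
  choose B hB using hB
  set B' : ℝ := ∑ i, |B i| with hB'
  have hB'0 : 0 ≤ B' := Finset.sum_nonneg fun i _ => abs_nonneg _
  have hBB : ∀ i, ∀ z ∈ K, ‖V i z‖ ≤ B' := fun i z hz =>
    ((hB i z hz).trans (le_abs_self _)).trans
      (Finset.single_le_sum (f := fun i => |B i|) (fun i _ => abs_nonneg _) (Finset.mem_univ i))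
  refine ⟨(m.factorial : ℝ) * (C * B') ^ m, by positivity, fun f hf z hz => ?_⟩
  have hent : ∀ i j, ‖vm V f z i j‖ ≤ C * B' := by
    intro i j
    have h1 := hCf (fun z (_ : Fin 1) => f j z)
      (differentiableOn_pi.2 fun _ => (hf j).1) 1 (fun w hw => by
        rw [pi_norm_le_iff_of_nonneg zero_le_one]
        exact fun _ => (hf j).2 w (hK'D hw))
    have h2 := h1.1 z hz
    have hd : DifferentiableAt ℂ (f j) z := (hf j).1.differentiableAt (hD.mem_nhds (hKD hz))
    have h3 : fderiv ℂ (fun z (_ : Fin 1) => f j z) z (V i z) 0 = fderiv ℂ (f j) z (V i z) := by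
      rw [fderiv_pi (fun _ => hd)]
      rfl
    simp only [vm, Matrix.of_apply]
    rw [← h3]
    calc ‖fderiv ℂ (fun z (_ : Fin 1) => f j z) z (V i z) 0‖
        ≤ ‖fderiv ℂ (fun z (_ : Fin 1) => f j z) z (V i z)‖ := norm_le_pi_norm _ 0
      _ ≤ ‖fderiv ℂ (fun z (_ : Fin 1) => f j z) z‖ * ‖V i z‖ := ContinuousLinearMap.le_opNorm _ _
      _ ≤ (C * 1) * B' := mul_le_mul h2 (hBB i z hz) (norm_nonneg _) (by positivity)
      _ = C * B' := by ring
  rw [Matrix.det_apply]
  calc ‖∑ σ : Equiv.Perm (Fin m), Equiv.Perm.sign σ • ∏ i, vm V f z (σ i) i‖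
      ≤ ∑ σ : Equiv.Perm (Fin m), ‖Equiv.Perm.sign σ • ∏ i, vm V f z (σ i) i‖ := norm_sum_le _ _
    _ ≤ ∑ _σ : Equiv.Perm (Fin m), (C * B') ^ m := by
        refine Finset.sum_le_sum fun σ _ => ?_
        have h1 : ‖Equiv.Perm.sign σ • ∏ i, vm V f z (σ i) i‖ = ‖∏ i, vm V f z (σ i) i‖ := by
          rcases Int.units_eq_one_or (Equiv.Perm.sign σ) with h | h
          · rw [h, one_smul]
          · rw [h, Units.neg_smul, one_smul, norm_neg]
        rw [h1, norm_prod]
        calc ∏ i, ‖vm V f z (σ i) i‖ ≤ ∏ _i : Fin m, C * B' :=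
              Finset.prod_le_prod (fun _ _ => norm_nonneg _) fun i _ => hent _ _
          _ = (C * B') ^ m := by simp
    _ = (m.factorial : ℝ) * (C * B') ^ m := by
        simp [Fintype.card_perm]

theorem carc : S_CAU → S_CARC := by
  intro hCAU b m D hD V hV
  have hadm0 : Adm D (fun (_ : Fin m) (_ : Cn b) => (0 : ℂ)) := fun j =>
    ⟨differentiableOn_const _, fun w _ => by simp⟩
  have hne : ∀ z, {r : ℝ | ∃ f : Fin m → Cn b → ℂ, Adm D f ∧ r = ‖(vm V f z).det‖}.Nonempty :=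
    fun z => ⟨_, _, hadm0, rfl⟩
  have hbdd : ∀ z ∈ D,
      BddAbove {r : ℝ | ∃ f : Fin m → Cn b → ℂ, Adm D f ∧ r = ‖(vm V f z).det‖} := by
    intro z hz
    obtain ⟨C, -, hC⟩ := vm_det_bound hCAU hD hV (singleton_subset_iff.2 hz) isCompact_singleton
    refine ⟨C, ?_⟩
    rintro r ⟨f, hf, rfl⟩
    exact hC f hf z rfl
  refine ⟨hbdd, ?_, ?_⟩
  · intro z hz
    exact (norm_nonneg _).trans (le_csSup (hbdd z hz) ⟨_, hadm0, rfl⟩)
  · intro z₀ hz₀
    obtain ⟨r, hr, hball⟩ := nhds_basis_closedBall.mem_iff.1 (hD.mem_nhds hz₀)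
    obtain ⟨K', hK'D, hK', -, C, hC, hCf⟩ :=
      hCAU (m := 1) D hD (closedBall z₀ r) hball (isCompact_closedBall z₀ r)
    obtain ⟨B, hB, hBf⟩ := vm_det_bound hCAU hD hV hK'D hK'
    have hlip : ∀ f : Fin m → Cn b → ℂ, Adm D f → ∀ x ∈ closedBall z₀ r, ∀ y ∈ closedBall z₀ r,
        ‖(vm V f x).det‖ ≤ ‖(vm V f y).det‖ + C * B * ‖x - y‖ := by
      intro f hf x hx y hy
      have h1 := (hCf (fun z (_ : Fin 1) => (vm V f z).det)
        (differentiableOn_pi.2 fun _ => vm_det_holo hD hV fun j => (hf j).1) B (fun w hw => by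
          rw [pi_norm_le_iff_of_nonneg hB]
          exact fun _ => hBf f hf w hw)).2 x hx y hy
      have h2 : ‖(vm V f x).det - (vm V f y).det‖ ≤ C * B * ‖x - y‖ :=
        (norm_le_pi_norm ((fun (_ : Fin 1) => (vm V f x).det) - fun _ => (vm V f y).det) 0).trans h1
      have h3 := norm_sub_norm_le (vm V f x).det (vm V f y).det
      linarith
    have hlip2 : ∀ x ∈ closedBall z₀ r, ∀ y ∈ closedBall z₀ r,
        carF D V x ≤ carF D V y + C * B * ‖x - y‖ := by
      intro x hx y hy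
      refine csSup_le (hne x) ?_
      rintro r' ⟨f, hf, rfl⟩
      exact (hlip f hf x hx y hy).trans
        (add_le_add_left (le_csSup (hbdd y (hball hy)) ⟨f, hf, rfl⟩) _)
    have hL : LipschitzOnWith (Real.toNNReal (C * B)) (carF D V) (closedBall z₀ r) := by
      refine LipschitzOnWith.of_dist_le_mul fun x hx y hy => ?_
      rw [Real.coe_toNNReal _ (by positivity), Real.dist_eq, dist_eq_norm, abs_sub_le_iff]
      constructor
      · linarith [hlip2 x hx y hy]
      · have := hlip2 y hy x hx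
        rw [norm_sub_rev] at this
        linarith
    exact (hL.continuousOn.continuousAt (closedBall_mem_nhds z₀ hr)).continuousWithinAt

end Pool.Agent.Helper45.Lin
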